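import Pool.Agent.Helper74.UB.Goals2

namespace Pool.Agent.Helper67.UB

open Finset Equiv Helper28.VF Pool.Agent.Helper74.UB
open scoped Classical

variable {D V E F : Type} [Fintype D] [Fintype V] [Fintype E] [Fintype F] {M : PM D V E F}

theorem mem_comps {Q O : Finset V} : O ∈ comps M Q ↔ IsComp M Q O := by
  unfold comps
  rw [mem_filter, mem_powerset]
  exact ⟨fun h => h.2, fun h => ⟨h.sub, h⟩⟩

theorem ev_eq (h1 : StmtPart) (h2 : StmtEvt) {c : ℕ} {v₀ : V} {A Q : ℕ → Finset V}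
    (hF : Fire M c v₀ A Q) {T : ℕ} {X : Finset V} (hC : Col M Q T X) (R : Route M A Q X T)
    {t : ℕ} (ht : t ≤ T) : R.ev t = ∑ O ∈ comps M (Q t), evO R O t := by
  obtain ⟨p1, -, p3, -⟩ := h1 D V E F M
  have hmono : ∀ s ≤ t, Q s ⊆ Q t := fun s hs => monotone_nat_of_le_succ hF.monoQ hs
  unfold Route.ev evO
  simp only [card_filter]
  rw [sum_comm]
  refine sum_congr rfl fun s hs => ?_
  have hst : s < t := mem_range.1 hs
  by_cases hE : R.Ev s
  · rw [if_pos hE]
    have hin : R.p s 0 ∈ Q t := hmono s hst.le hE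
    obtain ⟨O, hO, hvO⟩ := p1 (Q t) _ hin
    rw [sum_eq_single O]
    · rw [if_pos hvO]
    · intro O' hO' hne
      rw [if_neg]
      intro hv'
      apply hne
      refine p3 (Q t) O' O (mem_comps.1 hO') hO ?_
      rw [not_disjoint_iff]
      exact ⟨_, hv', hvO⟩
    · intro h
      exact absurd (mem_comps.2 hO) h
  · rw [if_neg hE]
    symm
    apply sum_eq_zero
    intro O hO
    rw [if_neg]
    intro hv
    have hin : R.p s 0 ∈ Q t := (mem_comps.1 hO).sub hv
    exact hE (h2 D V E F M c v₀ A Q hF T X hC R s t (lt_of_lt_of_le hst ht) hst.le ht hin).1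

theorem tot (h1 : StmtPart) (h2 : StmtEvt) (h3 : StmtEvb) : StmtTot := by
  intro D V E F _ _ _ _ M c v₀ A Q hF T X hC R₁ R₂ hfar t ht hH hbd
  have e1 := ev_eq h1 h2 hF hC R₁ ht
  have e2 := ev_eq h1 h2 hF hC R₂ ht
  obtain ⟨-, -, -, p4⟩ := h1 D V E F M
  have hQ := p4 (Q t)
  have hevb := fun O (hO : IsComp M (Q t) O) =>
    h3 D V E F M c v₀ A Q hF T X hC R₁ R₂ hfar t O ht hH hO
  -- the number of events
  set k : Finset V → ℕ := fun O => evO R₁ O t + evO R₂ O t with hk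
  have hsum : R₁.ev t + R₂.ev t = ∑ O ∈ comps M (Q t), k O := by
    rw [e1, e2, ← sum_add_distrib]
  have b2 : ∀ O ∈ comps M (Q t), 2 * k O ≤ 3 * O.card := fun O hO =>
    (hevb O (mem_comps.1 hO)).2.1 (hbd O (mem_comps.1 hO))
  have split : ∀ C ∈ comps M (Q t),
      R₁.ev t + R₂.ev t = k C + ∑ O ∈ (comps M (Q t)).erase C, k O := fun C hC' => by
    rw [hsum, add_sum_erase _ _ hC']
  have splitQ : ∀ C ∈ comps M (Q t),
      (Q t).card = C.card + ∑ O ∈ (comps M (Q t)).erase C, O.card := fun C hC' => by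
    rw [← hQ, add_sum_erase _ _ hC']
  refine ⟨?_, ?_, ?_⟩
  · rw [hsum, ← hQ, mul_sum, mul_sum]
    exact sum_le_sum b2
  · intro C hCc
    have hC' := mem_comps.2 hCc
    have h5 := (hevb C hCc).1
    have h6 : 2 * ∑ O ∈ (comps M (Q t)).erase C, k O ≤
        3 * ∑ O ∈ (comps M (Q t)).erase C, O.card := by
      rw [mul_sum, mul_sum]
      exact sum_le_sum fun O hO => b2 O (mem_of_mem_erase hO)
    have h7 := split C hC'
    have h8 := splitQ C hC'
    change 2 * k C ≤ _ at h5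
    omega
  · intro C O₀ hCc hO₀ ht1 hE1 hE2 hhf
    have hC' := mem_comps.2 hCc
    have hO' := mem_comps.2 hO₀
    have hT : 0 < T := by omega
    have hn1 : R₁.p 0 0 ∉ O₀ := fun h => hE1
      (h2 D V E F M c v₀ A Q hF T X hC R₁ 0 t hT (Nat.zero_le _) ht (hO₀.sub h)).1
    have hn2 : R₂.p 0 0 ∉ O₀ := fun h => hE2
      (h2 D V E F M c v₀ A Q hF T X hC R₂ 0 t hT (Nat.zero_le _) ht (hO₀.sub h)).1
    obtain ⟨g3, g4⟩ := (hevb O₀ hO₀).2.2 ht1 hn1 hn2 hhf
    have g4' := g4 (hbd O₀ hO₀)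
    change 2 * k O₀ + 2 ≤ _ at g3
    change 2 * k O₀ + 2 ≤ _ at g4'
    have h7 := split C hC'
    have h8 := splitQ C hC'
    by_cases hCO : C = O₀
    · subst hCO
      have h6 : 2 * ∑ O ∈ (comps M (Q t)).erase C, k O ≤
          3 * ∑ O ∈ (comps M (Q t)).erase C, O.card := by
        rw [mul_sum, mul_sum]
        exact sum_le_sum fun O hO => b2 O (mem_of_mem_erase hO)
      omega
    · have h5 := (hevb C hCc).1
      change 2 * k C ≤ _ at h5
      have hmem : O₀ ∈ (comps M (Q t)).erase C := mem_erase.2 ⟨fun h => hCO h.symm, hO'⟩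
      have h9 := add_sum_erase _ k hmem
      have h10 := add_sum_erase _ (fun O => O.card) hmem
      have h6 : 2 * ∑ O ∈ ((comps M (Q t)).erase C).erase O₀, k O ≤
          3 * ∑ O ∈ ((comps M (Q t)).erase C).erase O₀, O.card := by
        rw [mul_sum, mul_sum]
        exact sum_le_sum fun O hO => b2 O (mem_of_mem_erase (mem_of_mem_erase hO))
      omega

end Pool.Agent.Helper67.UB
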